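import Mathlib

set_option autoImplicit false

open Set Filter Topology

namespace Pool.Agent.Results.MP_723ccc_gt.TightLevels

/-- `(V, i)` is the free topological vector space over the space `X`: `V` is a (real) topological
vector space, `i : X → V` is continuous, and for every topological vector space `E` and every
continuous `f : X → E` there is a unique continuous linear `F : V → E` with `F ∘ i = f`. -/
structure IsFreeTVS (X : Type) [TopologicalSpace X] (V : Type) [AddCommGroup V] [Module ℝ V]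
    [TopologicalSpace V] (i : X → V) : Prop where
  addGroup : IsTopologicalAddGroup V
  smul : ContinuousSMul ℝ V
  cont : Continuous i
  univ : ∀ (E : Type) [AddCommGroup E] [Module ℝ E] [TopologicalSpace E]
    [IsTopologicalAddGroup E] [ContinuousSMul ℝ E] (f : X → E), Continuous f →
      ∃! F : V →L[ℝ] E, ∀ x, F (i x) = f x

/-- `sp_n(X) = {λ₁x₁ + ⋯ + λₙxₙ : |λⱼ| ≤ n, xⱼ ∈ X}`, as a subset of `V` -/
def sp {X V : Type} [AddCommGroup V] [Module ℝ V] (i : X → V) (n : ℕ) : Set V :=
  {v | ∃ (c : Fin n → ℝ) (x : Fin n → X), (∀ j, |c j| ≤ n) ∧ v = ∑ j, c j • i (x j)}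

/-- countable tightness of a space -/
def CountablyTight (Z : Type) [TopologicalSpace Z] : Prop :=
  ∀ (A : Set Z) (z : Z), z ∈ closure A → ∃ B ⊆ A, B.Countable ∧ z ∈ closure B

/-! ### The separable case -/

lemma tight_of_surj {P Z : Type} [TopologicalSpace P] [SecondCountableTopology P]
    [TopologicalSpace Z] (Φ : P → Z) (hc : Continuous Φ) (hs : Function.Surjective Φ) :
    CountablyTight Z := by
  intro A z hz
  obtain ⟨B', hB'c, hB'⟩ := TopologicalSpace.exists_countable_dense (Φ ⁻¹' A)
  refine ⟨(fun p : Φ ⁻¹' A => Φ p.1) '' B', ?_, hB'c.image _, ?_⟩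
  · rintro _ ⟨p, -, rfl⟩
    exact p.2
  · have h1 : A ⊆ closure ((fun p : Φ ⁻¹' A => Φ p.1) '' B') := by
      intro a ha
      obtain ⟨p, rfl⟩ := hs a
      have h2 : Continuous (fun p : Φ ⁻¹' A => Φ p.1) := hc.comp continuous_subtype_val
      exact image_closure_subset_closure_image h2 ⟨⟨p, ha⟩, hB' _, rfl⟩
    exact closure_minimal h1 isClosed_closure hz

variable {X V : Type} [TopologicalSpace X] [AddCommGroup V] [Module ℝ V] [TopologicalSpace V]

lemma tight_sp [SecondCountableTopology X] [IsTopologicalAddGroup V] [ContinuousSMul ℝ V]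
    (i : X → V) (hi : Continuous i) (n : ℕ) : CountablyTight (sp i n) := by
  let P : Type := (Fin n → Set.Icc (-(n : ℝ)) n) × (Fin n → X)
  let Φ : P → sp i n := fun p => ⟨∑ j, (p.1 j : ℝ) • i (p.2 j), fun j => p.1 j, p.2,
    fun j => abs_le.mpr (p.1 j).2, rfl⟩
  refine tight_of_surj Φ ?_ ?_
  · refine Continuous.subtype_mk (continuous_finsetSum _ fun j _ => ?_) _
    exact (continuous_subtype_val.comp ((continuous_apply j).comp continuous_fst)).smul
      (hi.comp ((continuous_apply j).comp continuous_snd))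
  · rintro ⟨v, c, x, hc, rfl⟩
    exact ⟨(fun j => ⟨c j, abs_le.mp (hc j)⟩, x), rfl⟩

/-! ### The nonseparable case -/

/-- a metrizable space which is not separable has an uncountable closed discrete set; we use it in
this form: there are a well-order of type `ω₁` and an injective family of points indexed by it such
that every real function on a countable set of indices is realized by a continuous function -/
lemma exists_family [TopologicalSpace.MetrizableSpace X]
    (hX : ¬ TopologicalSpace.SeparableSpace X) :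
    ∃ (W : Type) (_ : LinearOrder W) (_ : WellFoundedLT W) (x : W → X),
      (∀ a : W, (Iio a).Countable) ∧ ¬ (univ : Set W).Countable ∧
      ∀ c : W → ℝ, ∃ g : X → ℝ, Continuous g ∧ ∀ a, g (x a) = c a := by
  classical
  let _ : MetricSpace X := TopologicalSpace.metrizableSpaceMetric X
  -- a maximal `ε`-separated set is uncountable for some `ε`
  obtain ⟨ε, hε, S, hS, hSc⟩ : ∃ ε : ℝ, 0 < ε ∧ ∃ S : Set X,
      (∀ x ∈ S, ∀ y ∈ S, x ≠ y → ε ≤ dist x y) ∧ ¬ S.Countable := by
    by_contra hcon
    push Not at hcon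
    apply hX
    have hmax : ∀ n : ℕ, ∃ S : Set X, (∀ x ∈ S, ∀ y ∈ S, x ≠ y → 1 / ((n : ℝ) + 1) ≤ dist x y) ∧
        ∀ z, ∃ s ∈ S, dist z s < 1 / ((n : ℝ) + 1) := by
      intro n
      obtain ⟨S, hS⟩ := zorn_subset {S : Set X | ∀ x ∈ S, ∀ y ∈ S, x ≠ y →
        1 / ((n : ℝ) + 1) ≤ dist x y} (by
          intro c hc hch
          refine ⟨⋃₀ c, ?_, fun s hs => subset_sUnion_of_mem hs⟩
          rintro x ⟨s, hs, hxs⟩ y ⟨t, ht, hyt⟩ hxy
          rcases hch.total hs ht with h | h
          · exact hc ht x (h hxs) y hyt hxy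
          · exact hc hs x hxs y (h hyt) hxy)
      refine ⟨S, hS.1, fun z => ?_⟩
      by_contra hz
      push Not at hz
      have hzS : z ∉ S := fun h => by
        have h1 := hz z h
        rw [dist_self] at h1
        have h2 : (0 : ℝ) < 1 / ((n : ℝ) + 1) := by positivity
        linarith
      have h1 : insert z S ∈ {S : Set X | ∀ x ∈ S, ∀ y ∈ S, x ≠ y →
          1 / ((n : ℝ) + 1) ≤ dist x y} := by
        rintro x (rfl | hx) y (rfl | hy) hxy
        · exact absurd rfl hxy
        · exact hz y hy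
        · rw [dist_comm]; exact hz x hx
        · exact hS.1 x hx y hy hxy
      exact hzS (hS.2 h1 (subset_insert z S) (mem_insert z S))
    choose S hS1 hS2 using hmax
    refine ⟨⋃ n, S n, countable_iUnion fun n => hcon _ (by positivity) (S n) (hS1 n), ?_⟩
    intro z
    rw [Metric.mem_closure_iff]
    intro r hr
    obtain ⟨n, hn⟩ := exists_nat_one_div_lt hr
    obtain ⟨s, hs, hd⟩ := hS2 n z
    exact ⟨s, mem_iUnion.mpr ⟨n, hs⟩, hd.trans hn⟩
  -- the well-order
  have hcard : Cardinal.aleph 1 ≤ Cardinal.mk S := by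
    rw [← Cardinal.succ_aleph0, Order.succ_le_iff]
    by_contra h
    exact hSc (Cardinal.le_aleph0_iff_set_countable.mp (not_lt.mp h))
  let W : Type := (Cardinal.aleph.{0} 1).ord.ToType
  have hW : Cardinal.mk W = Cardinal.aleph 1 := Cardinal.mk_ord_toType _
  rw [← hW] at hcard
  obtain ⟨j⟩ := hcard
  refine ⟨W, inferInstance, inferInstance, fun a => (j a).1, ?_, ?_, ?_⟩
  · intro a
    rw [← Cardinal.le_aleph0_iff_set_countable]
    have h2 : Cardinal.mk (Set.Iio a) < Cardinal.aleph 1 := by
      have := Cardinal.mk_Iio_lt a (by rw [Ordinal.type_toType, hW])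
      rwa [hW] at this
    have h3 : (Cardinal.aleph.{0} 1) = Order.succ Cardinal.aleph0 := Cardinal.succ_aleph0.symm
    exact Order.lt_succ_iff.mp (h2.trans_eq h3)
  · rw [← Cardinal.le_aleph0_iff_set_countable, Cardinal.mk_univ, hW, not_le]
    exact Cardinal.aleph0_lt_aleph_one
  · intro c
    -- the set of the points is closed and discrete
    let T : Set X := range fun a : W => (j a).1
    have hinj : Function.Injective fun a : W => (j a).1 := fun a b h =>
      j.injective (Subtype.ext h)
    have hT : ∀ x ∈ T, ∀ y ∈ T, x ≠ y → ε ≤ dist x y := by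
      rintro _ ⟨a, rfl⟩ _ ⟨b, rfl⟩ hab
      exact hS _ (j a).2 _ (j b).2 hab
    have hTc : IsClosed T := by
      refine isClosed_of_closure_subset fun z hz => ?_
      rw [Metric.mem_closure_iff] at hz
      obtain ⟨s, hs, hds⟩ := hz (ε / 2) (by positivity)
      by_contra hzT
      have hne : 0 < dist z s := dist_pos.mpr fun h => hzT (h ▸ hs)
      obtain ⟨t, ht, hdt⟩ := hz (min (ε / 2) (dist z s)) (lt_min (by positivity) hne)
      have hst : s ≠ t := fun h => by
        rw [← h] at hdt
        exact absurd (hdt.trans_le (min_le_right _ _)) (lt_irrefl _)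
      have h1 := hT s hs t ht hst
      have h2 := dist_triangle s z t
      rw [dist_comm s z] at h2
      have h3 := hdt.trans_le (min_le_left _ _)
      linarith
    have hTd : DiscreteTopology T := by
      rw [discreteTopology_iff_isOpen_singleton]
      intro s
      rw [isOpen_induced_iff]
      refine ⟨Metric.ball s.1 ε, Metric.isOpen_ball, ?_⟩
      ext t
      rw [mem_preimage, Metric.mem_ball, mem_singleton_iff]
      constructor
      · intro h
        by_contra hne
        exact absurd (hT t.1 t.2 s.1 s.2 fun h' => hne (Subtype.ext h')) (not_le.mpr h)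
      · rintro rfl
        rw [dist_self]; exact hε
    let f0 : C(T, ℝ) := ⟨fun t => c t.2.choose, continuous_of_discreteTopology⟩
    obtain ⟨g, hg⟩ := ContinuousMap.exists_restrict_eq hTc f0
    refine ⟨g, g.continuous, fun a => ?_⟩
    have h1 := DFunLike.congr_fun hg ⟨(j a).1, a, rfl⟩
    have h2 : f0 ⟨(j a).1, a, rfl⟩ = c a := by
      change c _ = c a
      congr 1
      have h3 : ∃ b : W, (j b).1 = (j a).1 := ⟨a, rfl⟩
      exact hinj h3.choose_spec
    rw [h2] at h1
    exact h1

/-- an uncountable set of indices contains a pair with a large code -/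
lemma exists_pair {W : Type} [LinearOrder W] [WellFoundedLT W]
    (e : ∀ a : W, Iio a → ℕ) (he : ∀ a, Function.Injective (e a)) {T : Set W}
    (hT : ¬ T.Countable) (m : ℕ) : ∃ a ∈ T, ∃ b : Iio a, b.1 ∈ T ∧ m ≤ e a b := by
  classical
  have hinf : T.Infinite := fun h => hT h.countable
  -- an element of `T` with infinitely many predecessors in `T`
  obtain ⟨a, haT, ha⟩ : ∃ a ∈ T, (T ∩ Iio a).Infinite := by
    by_contra hcon
    push Not at hcon
    have h1 : ∀ a ∈ T, (T ∩ Iio a).Finite := hcon
    apply hT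
    -- the number of predecessors is injective on `T`
    have hinjT : InjOn (fun a => (T ∩ Iio a).ncard) T := by
      intro a ha b hb hab
      by_contra hne
      wlog hlt : a < b generalizing a b
      · exact this hb ha hab.symm (Ne.symm hne) (lt_of_le_of_ne (not_lt.mp hlt) (Ne.symm hne))
      have hss : T ∩ Iio a ⊂ T ∩ Iio b := by
        refine ⟨inter_subset_inter_right _ (Iio_subset_Iio hlt.le), fun h => ?_⟩
        exact lt_irrefl a (h ⟨ha, hlt⟩).2
      exact absurd hab (Set.ncard_lt_ncard hss (h1 b hb)).ne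
    exact Set.countable_iff_exists_injOn.mpr ⟨_, hinjT⟩
  by_contra hcon
  push Not at hcon
  have hfin : {b : Iio a | b.1 ∈ T}.Finite := by
    refine Set.Finite.of_finite_image ((finite_Iio m).subset ?_) ((he a).injOn)
    rintro _ ⟨b, hb, rfl⟩
    exact hcon a haT b hb
  apply ha
  refine (hfin.image Subtype.val).subset ?_
  rintro b ⟨hbT, hb⟩
  exact ⟨⟨b, hb⟩, hbT, rfl⟩

/-- if `X` is not separable then `sp_n(X)`, `n ≥ 2`, does not have countable tightness -/
lemma not_tight [TopologicalSpace.MetrizableSpace X] [IsTopologicalAddGroup V]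
    [ContinuousSMul ℝ V] (i : X → V)
    (huniv : ∀ g : X → ℝ, Continuous g → ∃ F : V →L[ℝ] ℝ, ∀ x, F (i x) = g x)
    (hX : ¬ TopologicalSpace.SeparableSpace X) (n : ℕ) (hn : 2 ≤ n) :
    ¬ CountablyTight (sp i n) := by
  classical
  intro ht
  obtain ⟨W, _, _, x, hW1, hW2, hx⟩ := exists_family hX
  have he : ∀ a : W, ∃ e : Iio a → ℕ, Function.Injective e := fun a => by
    have := (hW1 a).to_subtype
    exact exists_injective_nat _
  choose e he using he
  -- the vectors
  let v : (Σ a : W, Iio a) → V := fun p =>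
    (1 / ((e p.1 p.2 : ℝ) + 1)) • i (x p.1) + (1 / ((e p.1 p.2 : ℝ) + 1)) • i (x p.2.1)
  have hle : ∀ k : ℕ, |1 / ((k : ℝ) + 1)| ≤ n := fun k => by
    have hk : (0 : ℝ) < (k : ℝ) + 1 := by positivity
    rw [abs_of_nonneg (by positivity), div_le_iff₀ hk]
    have h2 : (2 : ℝ) ≤ n := by exact_mod_cast hn
    nlinarith
  have hvsp : ∀ p, v p ∈ sp i n := by
    intro p
    obtain ⟨m, rfl⟩ : ∃ m, n = m + 2 := ⟨n - 2, by omega⟩
    refine ⟨fun j => if j = 0 ∨ j = 1 then 1 / ((e p.1 p.2 : ℝ) + 1) else 0,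
      fun j => if j = 0 then x p.1 else x p.2.1, fun j => ?_, ?_⟩
    · beta_reduce
      split_ifs
      · exact hle _
      · rw [abs_zero]; positivity
    · rw [Fin.sum_univ_succ, Fin.sum_univ_succ]
      have hz : ∀ k : Fin m, ¬ ((k.succ.succ : Fin (m + 2)) = 0 ∨ (k.succ.succ : Fin (m + 2)) = 1) := by
        intro k
        rw [Fin.ext_iff, Fin.ext_iff]
        simp
      have h01 : (Fin.succ (0 : Fin (m + 1)) : Fin (m + 2)) = 1 := rfl
      simp only [hz, if_false, zero_smul, Finset.sum_const_zero, add_zero, h01, true_or, or_true,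
        if_true]
      rw [if_neg (by simp)]
  have h0sp : (0 : V) ∈ sp i n := by
    obtain ⟨a⟩ : Nonempty W := by
      by_contra h
      rw [not_nonempty_iff] at h
      exact hW2 (by rw [univ_eq_empty_iff.mpr h]; exact countable_empty)
    exact ⟨fun _ => 0, fun _ => x a, fun _ => by rw [abs_zero]; positivity, by simp⟩
  let A : Set (sp i n) := range fun p => (⟨v p, hvsp p⟩ : sp i n)
  -- zero is in the closure of `A`
  have hA : (⟨0, h0sp⟩ : sp i n) ∈ closure A := by
    rw [closure_subtype, mem_closure_iff_nhds]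
    intro U hU
    obtain ⟨U', hU', hadd⟩ : ∃ U' ∈ 𝓝 (0 : V), ∀ a ∈ U', ∀ b ∈ U', a + b ∈ U :=
      exists_nhds_zero_half hU
    have hm : ∀ a : W, ∃ m : ℕ, ∀ c : ℝ, |c| < 1 / ((m : ℝ) + 1) → c • i (x a) ∈ U' := by
      intro a
      have h1 : Tendsto (fun c : ℝ => c • i (x a)) (𝓝 0) (𝓝 0) := by
        have : Continuous (fun c : ℝ => c • i (x a)) := continuous_id.smul continuous_const
        simpa using this.tendsto 0
      obtain ⟨δ, hδ, h2⟩ := Metric.mem_nhds_iff.1 (h1 hU')
      obtain ⟨m, hm⟩ := exists_nat_one_div_lt hδ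
      refine ⟨m, fun c hc => h2 ?_⟩
      rw [mem_ball_zero_iff, Real.norm_eq_abs]
      exact hc.trans hm
    choose m hm using hm
    obtain ⟨k, hk⟩ : ∃ k : ℕ, ¬ {a : W | m a = k}.Countable := by
      by_contra hcon
      push Not at hcon
      apply hW2
      have : (univ : Set W) = ⋃ k, {a : W | m a = k} := by
        ext a; simp
      rw [this]
      exact countable_iUnion hcon
    obtain ⟨a, ha, b, hb, hab⟩ := exists_pair e he hk (k + 1)
    have hlt : |1 / ((e a b : ℝ) + 1)| < 1 / ((k : ℝ) + 1) := by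
      rw [abs_of_nonneg (by positivity)]
      apply one_div_lt_one_div_of_lt (by positivity)
      have : ((k + 1 : ℕ) : ℝ) ≤ (e a b : ℝ) := by exact_mod_cast hab
      push_cast at this
      linarith
    have ha' : m a = k := ha
    have hb' : m b.1 = k := hb
    refine ⟨v ⟨a, b⟩, ?_, ⟨⟨v ⟨a, b⟩, hvsp _⟩, ⟨⟨a, b⟩, rfl⟩, rfl⟩⟩
    exact hadd _ (hm a _ (by rw [ha']; exact hlt)) _ (hm b.1 _ (by rw [hb']; exact hlt))
  obtain ⟨B, hBA, hBc, hB⟩ := ht A _ hA
  -- the countable set of indices
  obtain ⟨P, hPc, hBP⟩ : ∃ P : Set (Σ a : W, Iio a), P.Countable ∧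
      B ⊆ (fun p => (⟨v p, hvsp p⟩ : sp i n)) '' P := by
    have hch : ∀ b : B, ∃ p, (⟨v p, hvsp p⟩ : sp i n) = b.1 := fun b => hBA b.2
    choose q hq using hch
    have := hBc.to_subtype
    exact ⟨range q, countable_range q, fun b hb => ⟨q ⟨b, hb⟩, mem_range_self _, hq ⟨b, hb⟩⟩⟩
  -- the countable set of first coordinates, enumerated
  obtain ⟨c, hc⟩ : ∃ c : W → ℝ, (∀ a, 0 ≤ c a) ∧ ∀ p ∈ P,
      ((e p.1 p.2 : ℝ) + 1) ≤ c p.1 + c p.2.1 := by
    let D0 : Set W := (fun p : Σ a : W, Iio a => p.1) '' P ∪ (fun p : Σ a : W, Iio a => p.2.1) '' P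
    have hD0 : D0.Countable := (hPc.image _).union (hPc.image _)
    obtain ⟨num, hnum⟩ := Set.countable_iff_exists_injOn.mp hD0
    -- the value at `a`: an upper bound of the codes of the pairs with the other element not later
    have hfin : ∀ a : W, {p : Σ a : W, Iio a | p ∈ P ∧ ((p.1 = a ∧ num p.2.1 ≤ num a) ∨
        (p.2.1 = a ∧ num p.1 ≤ num a))}.Finite := by
      intro a
      have hF : {d : W | d ∈ D0 ∧ num d ≤ num a}.Finite := by
        refine Set.Finite.of_finite_image ((finite_Iic (num a)).subset ?_)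
          (hnum.mono fun d hd => hd.1)
        rintro _ ⟨d, hd, rfl⟩
        exact hd.2
      refine Set.Finite.of_finite_image ((((hF.insert a).prod (hF.insert a))).subset ?_)
        (f := fun p : Σ a : W, Iio a => (p.1, p.2.1)) ?_
      · rintro _ ⟨p, ⟨hp, h⟩, rfl⟩
        rcases h with ⟨h1, h2⟩ | ⟨h1, h2⟩
        · exact ⟨by rw [← h1]; exact mem_insert _ _,
            mem_insert_of_mem _ ⟨Or.inr ⟨p, hp, rfl⟩, h2⟩⟩
        · exact ⟨mem_insert_of_mem _ ⟨Or.inl ⟨p, hp, rfl⟩, h2⟩,
            by rw [← h1]; exact mem_insert _ _⟩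
      · rintro ⟨a1, b1⟩ - ⟨a2, b2⟩ - h
        simp only [Prod.mk.injEq] at h
        obtain ⟨rfl, h2⟩ := h
        rw [Subtype.ext h2]
    refine ⟨fun a => ∑ p ∈ (hfin a).toFinset, ((e p.1 p.2 : ℝ) + 1),
      fun a => Finset.sum_nonneg fun _ _ => by positivity, fun p hp => ?_⟩
    have hnn : ∀ a, 0 ≤ ∑ p ∈ (hfin a).toFinset, ((e p.1 p.2 : ℝ) + 1) :=
      fun a => Finset.sum_nonneg fun _ _ => by positivity
    rcases le_total (num p.2.1) (num p.1) with h | h
    · have h1 : p ∈ (hfin p.1).toFinset := by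
        rw [Finite.mem_toFinset]
        exact ⟨hp, Or.inl ⟨rfl, h⟩⟩
      have h2 := Finset.single_le_sum (f := fun p : Σ a : W, Iio a => ((e p.1 p.2 : ℝ) + 1))
        (fun _ _ => by positivity) h1
      linarith [hnn p.2.1]
    · have h1 : p ∈ (hfin p.2.1).toFinset := by
        rw [Finite.mem_toFinset]
        exact ⟨hp, Or.inr ⟨rfl, h⟩⟩
      have h2 := Finset.single_le_sum (f := fun p : Σ a : W, Iio a => ((e p.1 p.2 : ℝ) + 1))
        (fun _ _ => by positivity) h1
      linarith [hnn p.1]
  obtain ⟨hc0, hc⟩ := hc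
  obtain ⟨g, hg, hgx⟩ := hx c
  obtain ⟨F, hF⟩ := huniv g hg
  have hFB : ∀ b ∈ B, 1 ≤ F b.1 := by
    intro b hb
    obtain ⟨p, hp, rfl⟩ := hBP hb
    have h1 := hc p hp
    have hpos : (0 : ℝ) < (e p.1 p.2 : ℝ) + 1 := by positivity
    show 1 ≤ F (v p)
    simp only [v, map_add, map_smul, hF, hgx, smul_eq_mul]
    rw [← mul_add, one_div, ← div_eq_inv_mul, le_div_iff₀ hpos]
    linarith
  have hcl : B ⊆ {b : sp i n | 1 ≤ F b.1} := hFB
  have hclosed : IsClosed {b : sp i n | 1 ≤ F b.1} :=
    isClosed_le continuous_const (F.continuous.comp continuous_subtype_val)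
  have := closure_minimal hcl hclosed hB
  have h2 : (1 : ℝ) ≤ F 0 := this
  rw [map_zero] at h2
  linarith

/-- existence of the free topological vector space -/
lemma exists_free (X : Type) [TopologicalSpace X] :
    ∃ (V : Type) (_ : AddCommGroup V) (_ : Module ℝ V) (_ : TopologicalSpace V) (i : X → V),
      IsFreeTVS X V i := by
  classical
  let i : X → (X →₀ ℝ) := fun x => Finsupp.single x 1
  let 𝒯 : Set (TopologicalSpace (X →₀ ℝ)) :=
    {t | @IsTopologicalAddGroup (X →₀ ℝ) t _ ∧ @ContinuousSMul ℝ (X →₀ ℝ) _ _ t ∧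
      @Continuous X (X →₀ ℝ) _ t i}
  let τ : TopologicalSpace (X →₀ ℝ) := sInf 𝒯
  have h1 : @IsTopologicalAddGroup (X →₀ ℝ) τ _ := topologicalAddGroup_sInf fun t ht => ht.1
  have h2 : @ContinuousSMul ℝ (X →₀ ℝ) _ _ τ := continuousSMul_sInf fun t ht => ht.2.1
  have h3 : @Continuous X (X →₀ ℝ) _ τ i := continuous_sInf_rng.mpr fun t ht => ht.2.2
  refine ⟨X →₀ ℝ, inferInstance, inferInstance, τ, i, h1, h2, h3, ?_⟩
  intro E _ _ tE _ _ f hf
  let L : (X →₀ ℝ) →ₗ[ℝ] E := Finsupp.lift E ℝ X f
  have hL : ∀ x, L (i x) = f x := fun x => by simp [L, i]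
  have hLc : @Continuous (X →₀ ℝ) E τ tE L := by
    have hmem : TopologicalSpace.induced L tE ∈ 𝒯 := by
      refine ⟨topologicalAddGroup_induced L, continuousSMul_induced L, ?_⟩
      rw [continuous_induced_rng]
      have : L ∘ i = f := funext hL
      rw [this]
      exact hf
    rw [continuous_iff_le_induced]
    exact sInf_le hmem
  refine ⟨⟨L, hLc⟩, hL, ?_⟩
  intro F hF
  apply ContinuousLinearMap.coe_injective
  refine Finsupp.lhom_ext' fun x => LinearMap.ext_ring ?_
  change F (i x) = L (i x)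
  rw [hF x, hL x]

/-- **Answer to Question 1 (affirmative).** For every metrizable space `X` the free topological
vector space exists, and for each free topological vector space `(V, i)` over `X`: if `sp_2(X)` has
countable tightness then so has `sp_4(X)`; more precisely, for every `n ≥ 2` the space `sp_n(X)` has
countable tightness if and only if `X` is separable. -/
theorem result (X : Type) [TopologicalSpace X] [TopologicalSpace.MetrizableSpace X] :
    (∃ (V : Type) (_ : AddCommGroup V) (_ : Module ℝ V) (_ : TopologicalSpace V) (i : X → V),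
      IsFreeTVS X V i) ∧
    ∀ (V : Type) [AddCommGroup V] [Module ℝ V] [TopologicalSpace V] (i : X → V),
      IsFreeTVS X V i →
      (CountablyTight (sp i 2) → CountablyTight (sp i 4)) ∧
      ∀ n : ℕ, 2 ≤ n → (CountablyTight (sp i n) ↔ TopologicalSpace.SeparableSpace X) := by
  refine ⟨exists_free X, fun V _ _ _ i h => ?_⟩
  have := h.addGroup
  have := h.smul
  have key : ∀ n : ℕ, 2 ≤ n → (CountablyTight (sp i n) ↔ TopologicalSpace.SeparableSpace X) := by
    intro n hn
    constructor
    · intro ht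
      by_contra hX
      refine not_tight i (fun g hg => ?_) hX n hn ht
      obtain ⟨F, hF, -⟩ := h.univ ℝ g hg
      exact ⟨F, hF⟩
    · intro hs
      let _ : MetricSpace X := TopologicalSpace.metrizableSpaceMetric X
      have : SecondCountableTopology X := UniformSpace.secondCountable_of_separable X
      exact tight_sp i h.cont n
  exact ⟨fun h2 => (key 4 (by norm_num)).mpr ((key 2 le_rfl).mp h2), key⟩

end Pool.Agent.Results.MP_723ccc_gt.TightLevels
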